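import Pool.Agent.H695R3.PP.Stmts

/-!
Task 1635 (TaskTop) of project H695-LP: if `δ₀` is in the closed span of the square summable
eigenvectors of every translate of `V`, then the eigenvectors of `V` are complete.
-/

set_option autoImplicit false

open scoped ENNReal

namespace Pool.Agent.H68R3.LP

open Pool.Agent.H695R3.PP

/-- Square summable complex sequences on `ℤ`. -/
abbrev L2 : Type := lp (fun _ : ℤ => ℂ) 2

theorem two_toReal : (0 : ℝ) < (2 : ℝ≥0∞).toReal := by norm_num

theorem memlp_shift (m : ℤ) (f : L2) : Memℓp (fun n : ℤ => f (n - m)) 2 := by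
  have h := lp.memℓp f
  rw [memℓp_gen_iff two_toReal] at h ⊢
  exact (Equiv.subRight m).summable_iff.mpr h

/-- The translation by `m`. -/
noncomputable def shift (m : ℤ) : L2 →ₗᵢ[ℂ] L2 where
  toFun f := ⟨fun n => f (n - m), memlp_shift m f⟩
  map_add' f g := by ext n; rfl
  map_smul' c f := by ext n; rfl
  norm_map' f := by
    rw [lp.norm_eq_tsum_rpow two_toReal, lp.norm_eq_tsum_rpow two_toReal]
    congr 1
    exact (Equiv.subRight m).tsum_eq (fun n => ‖f n‖ ^ (2 : ℝ≥0∞).toReal)

theorem shift_apply (m : ℤ) (f : L2) (n : ℤ) : (shift m f) n = f (n - m) := rfl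

theorem shift_mem (V : ℤ → ℝ) (m : ℤ) {f : L2} (hf : f ∈ EigSpan fun n => V (m + n)) :
    shift m f ∈ EigSpan V := by
  have h : EigSpan (fun n => V (m + n)) ≤ (EigSpan V).comap (shift m).toLinearMap := by
    unfold EigSpan
    rw [Submodule.span_le]
    rintro ψ ⟨E, hE⟩
    refine Submodule.subset_span ⟨E, fun n => ?_⟩
    have h := hE (n - m)
    have e1 : (n + 1 - m) = n - m + 1 := by ring
    have e2 : (n - 1 - m) = n - m - 1 := by ring
    have e3 : m + (n - m) = n := by ring
    change ψ (n + 1 - m) + ψ (n - 1 - m) + (V n : ℂ) * ψ (n - m) = (E : ℂ) * ψ (n - m)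
    rw [e1, e2]
    simpa only [e3] using h
  exact h hf

theorem shift_single (m : ℤ) :
    shift m (lp.single 2 (0 : ℤ) (1 : ℂ)) = lp.single 2 m (1 : ℂ) := by
  ext n
  rw [shift_apply]
  by_cases h : n = m
  · subst h
    simp
  · rw [lp.single_apply_ne, lp.single_apply_ne]
    · exact h
    · intro h'
      exact h (by omega)

theorem taskTop : TaskTop := by
  intro V hV
  have h1 : ∀ m : ℤ, lp.single 2 m (1 : ℂ) ∈ (EigSpan V).topologicalClosure := by
    intro m
    rw [← shift_single m]
    have h := hV m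
    exact map_mem_closure (shift m).continuous h (fun f hf => shift_mem V m hf)
  have h2 : ∀ (m : ℤ) (c : ℂ), (lp.single 2 m c : L2) ∈ (EigSpan V).topologicalClosure := by
    intro m c
    have h := Submodule.smul_mem _ c (h1 m)
    have e : c • (lp.single 2 m (1 : ℂ) : L2) = lp.single 2 m c := by
      rw [← lp.single_smul]
      simp
    rwa [e] at h
  rw [eq_top_iff]
  intro f _
  have hs := lp.hasSum_single (E := fun _ : ℤ => ℂ) (p := 2) (by norm_num) f
  refine (Submodule.isClosed_topologicalClosure _).mem_of_tendsto hs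
    (Filter.Eventually.of_forall fun s => ?_)
  exact Submodule.sum_mem _ fun i _ => h2 i (f i)

end Pool.Agent.H68R3.LP
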